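import Pool.Agent.H79.MC.Targets

/-!
Maximum cut in polynomial space: ZER (filling the first cells of an array with zeros).
-/

set_option autoImplicit false

namespace Pool.Agent.H89.MC

open Pool.Agent.H79.MC

theorem pf_zer (hFR : T_FR) (hMXW : T_MXW) : T_ZER := by
  intro W k N s m hm hN
  have hstep := hFR W 8 N (.put k (.reg 8) (.lit 0)) s 1 m
    (fun l s' => Agree {8} {k} s s' ∧ s'.r 8 = l ∧ ∀ j < l, s'.a k j = 0) ?_ ?_ ?_
  · obtain ⟨t, s', hr, ht, hag, -, hz⟩ := hstep
    exact ⟨t, s', hr, by omega, hag, hz⟩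
  · refine ⟨⟨?_, ?_⟩, ?_, ?_⟩
    · intro i hi
      have h8 : i ≠ 8 := by simpa using hi
      simp [St.setr, h8]
    · intro k' _
      rfl
    · simp [St.setr]
    · intro j hj
      omega
  · rintro l s' _ ⟨hag, h8, -⟩
    exact ⟨h8, hN s' hag⟩
  · rintro l s' hl ⟨hag, h8, hz⟩
    refine ⟨1, _, Run.put k (.reg 8) (.lit 0) s' ?_ ?_, le_refl _, ?_, ⟨?_, ?_⟩, ?_, ?_⟩
    · simp only [mx]
      omega
    · simp only [mx]
      omega
    · simpa [St.seta] using h8
    · intro i hi
      have h8' : i ≠ 8 := by simpa using hi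
      have := hag.1 i hi
      simpa [St.setr, St.seta, h8'] using this
    · intro k' hk'
      have hk : k' ≠ k := by simpa using hk'
      have := hag.2 k' hk'
      simpa [St.setr, St.seta, hk] using this
    · simp [St.setr]
    · intro j hj
      have hz' := hz j
      by_cases hjl : j = l
      · subst hjl
        simp [St.setr, St.seta, ev, h8]
      · have : j < l := by omega
        simp [St.setr, St.seta, ev, h8, Function.update_of_ne hjl, hz' this]

end Pool.Agent.H89.MC
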