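import Pool.Agent.H89.MC.Targets

/-!
MP_5da387_pr, module TLM: tails pass to the limit.
-/

namespace Pool.Agent.H89.MC.TLM

open Classical MeasureTheory ProbabilityTheory Filter
open Pool.Agent.H96.MC
open scoped ENNReal

variable {d q : ℕ}

/-- the clopen events -/
def AA (r : ℝ) (i : Fin q) (k : ℕ) : Set (XX d q) :=
  {ω | k < ω.1 (0, i) ∧ Far r ω ((0, i), k)}

theorem AA_clopen (h : T_CLO) (r : ℝ) (i : Fin q) (k : ℕ) : IsClopen (AA (d := d) r i k) := by
  obtain ⟨h1, -, h3, -⟩ := h d q ∅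
  have e : AA (d := d) r i k = {ω | ω.1 (0, i) ∈ Set.Ioi k} ∩ {ω | Far r ω ((0, i), k)} := by
    ext ω; simp [AA]
  rw [e]
  exact (h1 _ _).inter (h3 _ _)

theorem card_eq_tsum (n : ℕ) (p : ℕ → Prop) :
    (((Finset.range n).filter p).card : ℝ≥0∞) = ∑' k : ℕ, (if k < n ∧ p k then (1 : ℝ≥0∞) else 0) := by
  rw [tsum_eq_sum (s := Finset.range n)]
  · rw [Finset.card_filter]
    push_cast
    refine Finset.sum_congr rfl fun k hk => ?_
    have : k < n := Finset.mem_range.1 hk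
    simp [this]
  · intro k hk
    have : ¬ k < n := by simpa using hk
    simp [this]

theorem numFar_eq (r : ℝ) (ω : XX d q) :
    ((numFarAt 0 r ω : ℕ) : ℝ≥0∞) = ∑ i : Fin q, ∑' k : ℕ, (AA r i k).indicator (fun _ => (1 : ℝ≥0∞)) ω := by
  unfold numFarAt
  push_cast
  refine Finset.sum_congr rfl fun i _ => ?_
  rw [card_eq_tsum]
  refine tsum_congr fun k => ?_
  simp only [AA, Set.indicator, Set.mem_ofPred_eq]

theorem lint_eq (h : T_CLO) (r : ℝ) (μ : Measure (XX d q)) :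
    ∫⁻ ω, ((numFarAt 0 r ω : ℕ) : ℝ≥0∞) ∂μ = ∑ i : Fin q, ∑' k : ℕ, μ (AA r i k) := by
  have hm : ∀ (i : Fin q) (k : ℕ), MeasurableSet (AA (d := d) r i k) := fun i k =>
    (AA_clopen h r i k).isOpen.measurableSet
  simp_rw [numFar_eq]
  rw [lintegral_finsetSum]
  · refine Finset.sum_congr rfl fun i _ => ?_
    rw [lintegral_tsum]
    · refine tsum_congr fun k => ?_
      exact lintegral_indicator_one (hm i k)
    · intro k
      exact (measurable_const.indicator (hm i k)).aemeasurable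
  · intro i _
    exact Measurable.tsum fun k => measurable_const.indicator (hm i k)

theorem tlm (h1 : T_CLO) : T_TLM := by
  intro d q U μ ν r t hL ht
  obtain ⟨hU, hp, hpν, hlim⟩ := hL
  have e0 : ∀ ω : XX d q, ((numFar r ω : ℕ) : ℝ≥0∞) = ((numFarAt 0 r ω : ℕ) : ℝ≥0∞) := fun ω => rfl
  simp_rw [e0]
  rw [lint_eq h1]
  have e1 : ∑ i : Fin q, ∑' k : ℕ, ν (AA r i k) = ∑' k : ℕ, ∑ i : Fin q, ν (AA r i k) := by
    rw [Summable.tsum_finsetSum]
    intro i _
    exact ENNReal.summable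
  rw [e1]
  refine ENNReal.tsum_le_of_sum_range_le fun N => ?_
  have ht2 : Tendsto (fun J => ∑ k ∈ Finset.range N, ∑ i : Fin q, μ J (AA r i k)) U
      (nhds (∑ k ∈ Finset.range N, ∑ i : Fin q, ν (AA r i k))) := by
    refine tendsto_finsetSum _ fun k _ => tendsto_finsetSum _ fun i _ => ?_
    exact hlim _ (AA_clopen h1 r i k)
  refine le_of_tendsto ht2 ?_
  have ht3 : ∀ᶠ J in (U : Filter ℕ), ∫⁻ ω, (numFarAt 0 r ω : ENNReal) ∂(μ J) ≤ t := hU ht
  refine ht3.mono ?_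
  intro J hJ
  refine le_trans ?_ hJ
  rw [lint_eq h1]
  have e2 : ∑ i : Fin q, ∑' k : ℕ, μ J (AA r i k) = ∑' k : ℕ, ∑ i : Fin q, μ J (AA r i k) := by
    rw [Summable.tsum_finsetSum]
    intro i _
    exact ENNReal.summable
  rw [e2]
  exact ENNReal.sum_le_tsum _

end Pool.Agent.H89.MC.TLM
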