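import Pool.Agent.H96.MC.Iface
import Pool.Agent.H96.MC.Targets2
import Pool.Agent.H96.MC.Targets4

/-!
Multicolour Poisson matchings (MP_5da387_pr): from finite windows to the limit law, from the
limit law to a scheme in space, and the typical diameter of a scheme.
-/

namespace Pool.Agent.H96.MC

open Classical MeasureTheory ProbabilityTheory

noncomputable section

variable {d q : ℕ}

instance : DiscreteTopology (Finset (Pt d q)) := ⟨rfl⟩
instance : DiscreteMeasurableSpace (Finset (Pt d q)) := ⟨fun _ => MeasurableSpace.measurableSet_top⟩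
instance : Countable (Finset (Pt d q)) := inferInstance
instance : SecondCountableTopology (Finset (Pt d q)) := inferInstance
instance : TopologicalSpace.SeparableSpace (Finset (Pt d q)) := inferInstance
instance : TopologicalSpace.IsCompletelyMetrizableSpace (Finset (Pt d q)) := inferInstance
instance : PolishSpace (Finset (Pt d q)) := inferInstance
instance : PolishSpace (Pt d q → Finset (Pt d q)) := inferInstance
instance : PolishSpace (Cfg d q) := inferInstance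
instance : BorelSpace (Finset (Pt d q)) := inferInstance
instance : BorelSpace (Cfg d q) := inferInstance
instance : BorelSpace (Pt d q → Finset (Pt d q)) := inferInstance
instance : PolishSpace (XX d q) := inferInstance
instance : BorelSpace (XX d q) := inferInstance

/-! ### part 1: the limit law -/

/-- [SHX] basic properties of translations -/
def T_SHX : Prop := ∀ (d q : ℕ),
  (∀ c : Cell d, Continuous (shX (q := q) c)) ∧ (∀ ω : XX d q, shX 0 ω = ω) ∧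
  (∀ (a b : Cell d) (ω : XX d q), shX a (shX b ω) = shX (a + b) ω) ∧
  (∀ (c : Cell d) (ω : XX d q) (x : Pt d q) (r : ℝ), Far r (shX c ω) x ↔ Far r ω (trP c x)) ∧
  (∀ (a c : Cell d) (ω : XX d q) (r : ℝ), numFarAt c r (shX a ω) = numFarAt (c + a) r ω) ∧
  ∀ (V : Finset (Fin q → ℕ)) (c : Cell d) (ω : XX d q),
    (IsMat V ω → IsMat V (shX c ω)) ∧ (IsPerf V ω → IsPerf V (shX c ω))

/-- [CLO] elementary conditions are clopen, events and numbers are measurable -/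
def T_CLO : Prop := ∀ (d q : ℕ) (V : Finset (Fin q → ℕ)),
  (∀ (x : CC d q) (S : Set ℕ), IsClopen {ω : XX d q | ω.1 x ∈ S}) ∧
  (∀ (x : Pt d q) (S : Set (Finset (Pt d q))), IsClopen {ω : XX d q | ω.2 x ∈ S}) ∧
  (∀ (x : Pt d q) (r : ℝ), IsClopen {ω : XX d q | Far r ω x}) ∧
  MeasurableSet {ω : XX d q | IsMat V ω} ∧ MeasurableSet {ω : XX d q | IsPerf V ω} ∧
  ∀ (c : Cell d) (r : ℝ), Measurable fun ω : XX d q => (numFarAt c r ω : ENNReal)

/-- [CPT] compactness: a sequence of laws which is tight in every coordinate has a limit along an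
ultrafilter, on all clopen sets -/
def T_CPT : Prop := ∀ (d q : ℕ) (μ : ℕ → Measure (XX d q)), (∀ J, IsProbabilityMeasure (μ J)) →
  (∀ x : CC d q, ∀ ε > 0, ∃ S : Finset ℕ, ∀ᶠ J in Filter.atTop, μ J {ω | ω.1 x ∉ S} ≤ ENNReal.ofReal ε) →
  (∀ x : Pt d q, ∀ ε > 0, ∃ S : Finset (Finset (Pt d q)), ∀ᶠ J in Filter.atTop,
    μ J {ω | ω.2 x ∉ S} ≤ ENNReal.ofReal ε) →
  ∃ (U : Ultrafilter ℕ) (ν : Measure (XX d q)), (U : Filter ℕ) ≤ Filter.atTop ∧
    IsProbabilityMeasure ν ∧ ∀ A, IsClopen A → Filter.Tendsto (fun J => μ J A) U (nhds (ν A))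

/-- [TIG] matchings with controlled diameters are tight -/
def T_TIG : Prop := ∀ (d q : ℕ) (D : Dat q) (μ : ℕ → Measure (XX d q)) (τ : ℝ → ENNReal),
  (∀ J, IsProbabilityMeasure (μ J)) → (∀ J, (μ J).map Prod.fst = pois D d) →
  (∀ J, ∀ᵐ ω ∂(μ J), IsMat D.V ω) → Filter.Tendsto τ Filter.atTop (nhds 0) →
  (∀ c r, ∀ᶠ J in Filter.atTop, ∫⁻ ω, (numFarAt c r ω : ENNReal) ∂(μ J) ≤ τ r) →
  (∀ x : CC d q, ∀ ε > 0, ∃ S : Finset ℕ, ∀ᶠ J in Filter.atTop, μ J {ω | ω.1 x ∉ S} ≤ ENNReal.ofReal ε) ∧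
  ∀ x : Pt d q, ∀ ε > 0, ∃ S : Finset (Finset (Pt d q)), ∀ᶠ J in Filter.atTop,
    μ J {ω | ω.2 x ∉ S} ≤ ENNReal.ofReal ε

/-- average of the translates of a law over the cube of radius `m` -/
def avg (m : ℕ) (ν : Measure (XX d q)) : Measure (XX d q) :=
  ((cube (0 : Cell d) m).card : ENNReal)⁻¹ • ∑ c ∈ cube (0 : Cell d) m, ν.map (shX c)

/-- [AVG] averages over large cubes are almost invariant -/
def T_AVG : Prop := ∀ (d q : ℕ),
  (∀ (m : ℕ) (ν : Measure (XX d q)), IsProbabilityMeasure ν → IsProbabilityMeasure (avg m ν)) ∧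
  (∀ (m : ℕ) (ν : Measure (XX d q)) (f : XX d q → ENNReal) (C : ENNReal), Measurable f →
    (∀ c, sn c ≤ m → ∫⁻ ω, f (shX c ω) ∂ν ≤ C) → ∫⁻ ω, f ω ∂(avg m ν) ≤ C) ∧
  (∀ (D : Dat q) (m : ℕ) (ν : Measure (XX d q)), ν.map Prod.fst = pois D d →
    (avg m ν).map Prod.fst = pois D d) ∧
  ∀ (a : Cell d) (ε : ℝ), 0 < ε → ∃ m₀ : ℕ, ∀ m ≥ m₀, ∀ (ν : Measure (XX d q)) (A : Set (XX d q)),
    IsProbabilityMeasure ν → MeasurableSet A →
    avg m ν (shX a ⁻¹' A) ≤ avg m ν A + ENNReal.ofReal ε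

/-- [AVP] the averaged laws of the finite windows -/
def T_AVP : Prop := ∀ (d q : ℕ) (D : Dat q) (M : ℕ → ℕ) (τ : ℝ → ENNReal)
  (Φ : ℕ → Cfg d q → Pt d q → Finset (Pt d q)),
  Filter.Tendsto M Filter.atTop Filter.atTop → (∀ J, Measurable (Φ J)) →
  (∀ J n, IsMat D.V (n, Φ J n)) →
  Filter.Tendsto (fun J => pois D d {n | ∃ x : Pt d q, sn x.1.1 ≤ M J ∧ x.2 < n x.1 ∧ Φ J n x = ∅})
    Filter.atTop (nhds 0) →
  (∀ J c r, sn c ≤ M J → ∫⁻ n, (numFarAt c r (n, Φ J n) : ENNReal) ∂(pois D d) ≤ τ r) →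
  ∃ μ : ℕ → Measure (XX d q), (∀ J, IsProbabilityMeasure (μ J)) ∧
    (∀ J, (μ J).map Prod.fst = pois D d) ∧ (∀ J, ∀ᵐ ω ∂(μ J), IsMat D.V ω) ∧
    (∀ x : Pt d q, Filter.Tendsto (fun J => μ J {ω | x.2 < ω.1 x.1 ∧ ω.2 x = ∅}) Filter.atTop (nhds 0)) ∧
    (∀ c r, ∀ᶠ J in Filter.atTop, ∫⁻ ω, (numFarAt c r ω : ENNReal) ∂(μ J) ≤ τ r) ∧
    ∀ (a : Cell d) (ε : ℝ), 0 < ε → ∀ᶠ J in Filter.atTop, ∀ A : Set (XX d q), MeasurableSet A →
      μ J (shX a ⁻¹' A) ≤ μ J A + ENNReal.ofReal ε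

/-- convergence on clopen sets along an ultrafilter -/
def LimOn (U : Ultrafilter ℕ) (μ : ℕ → Measure (XX d q)) (ν : Measure (XX d q)) : Prop :=
  (U : Filter ℕ) ≤ Filter.atTop ∧ (∀ J, IsProbabilityMeasure (μ J)) ∧ IsProbabilityMeasure ν ∧
    ∀ A, IsClopen A → Filter.Tendsto (fun J => μ J A) U (nhds (ν A))

/-- [EQM] laws which agree on clopen sets are equal -/
def T_EQM : Prop := ∀ (d q : ℕ),
  (∀ (μ ν : Measure (XX d q)), IsProbabilityMeasure μ → IsProbabilityMeasure ν →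
    (∀ A, IsClopen A → μ A = ν A) → μ = ν) ∧
  ∀ (μ ν : Measure (Cfg d q)), IsProbabilityMeasure μ → IsProbabilityMeasure ν →
    (∀ A, IsClopen A → μ A = ν A) → μ = ν

/-- [LIN] first marginal and invariance of the limit -/
def T_LIN : Prop := ∀ (d q : ℕ) (D : Dat q) (U : Ultrafilter ℕ) (μ : ℕ → Measure (XX d q))
  (ν : Measure (XX d q)), LimOn U μ ν → (∀ J, (μ J).map Prod.fst = pois D d) →
  (∀ (a : Cell d) (ε : ℝ), 0 < ε → ∀ᶠ J in Filter.atTop, ∀ A : Set (XX d q), MeasurableSet A →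
    μ J (shX a ⁻¹' A) ≤ μ J A + ENNReal.ofReal ε) →
  ν.map Prod.fst = pois D d ∧ ∀ c, ν.map (shX c) = ν

/-- [LPF] the limit is carried by the perfect matchings -/
def T_LPF : Prop := ∀ (d q : ℕ) (V : Finset (Fin q → ℕ)) (U : Ultrafilter ℕ)
  (μ : ℕ → Measure (XX d q)) (ν : Measure (XX d q)), LimOn U μ ν →
  (∀ J, ∀ᵐ ω ∂(μ J), IsMat V ω) →
  (∀ x : Pt d q, Filter.Tendsto (fun J => μ J {ω | x.2 < ω.1 x.1 ∧ ω.2 x = ∅}) Filter.atTop (nhds 0)) →
  ∀ᵐ ω ∂ν, IsPerf V ω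

/-- [TLM] tails pass to the limit -/
def T_TLM : Prop := ∀ (d q : ℕ) (U : Ultrafilter ℕ) (μ : ℕ → Measure (XX d q))
  (ν : Measure (XX d q)) (r : ℝ) (t : ENNReal), LimOn U μ ν →
  (∀ᶠ J in Filter.atTop, ∫⁻ ω, (numFarAt 0 r ω : ENNReal) ∂(μ J) ≤ t) →
  ∫⁻ ω, (numFar r ω : ENNReal) ∂ν ≤ t

/-! ### part 2: from the cells to the space -/

/-- the uniform law on the unit cube -/
def unif (d : ℕ) : Measure (Fin d → ℝ) :=
  (volume : Measure (Fin d → ℝ)).restrict (Set.pi Set.univ fun _ => Set.Ico 0 1)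

/-- the probability space of the construction: matching, positions of the points in their cells,
shift -/
abbrev Big (d q : ℕ) := XX d q × (Pt d q → Fin d → ℝ) × (Fin d → ℝ)

/-- its law -/
def bigLaw (μ : Measure (XX d q)) : Measure (Big d q) :=
  μ.prod ((Measure.infinitePi fun _ : Pt d q => unif d).prod (unif d))

/-- position of a potential point -/
def pos (ω : Big d q) (x : Pt d q) : Sp d :=
  WithLp.toLp 2 fun l => ((x.1.1 l : ℝ) + ω.2.1 x l + ω.2.2 l)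

/-- the good event: positions are pairwise different and in the unit cube, the matching is
perfect -/
def GoodB (V : Finset (Fin q → ℕ)) (ω : Big d q) : Prop :=
  (∀ x y : Pt d q, ω.2.1 x = ω.2.1 y → x = y) ∧ (∀ x l, 0 ≤ ω.2.1 x l ∧ ω.2.1 x l < 1) ∧
  (∀ l, 0 ≤ ω.2.2 l ∧ ω.2.2 l < 1) ∧ IsPerf V ω.1

/-- the positions of a finite set of potential points -/
def famB (ω : Big d q) (G : Finset (Pt d q)) : Finset (Sp d) := G.image (pos ω)

/-- the families -/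
def matB (V : Finset (Fin q → ℕ)) (ω : Big d q) : Set (Finset (Sp d)) :=
  {F | GoodB V ω ∧ ∃ x, (ω.1.2 x).Nonempty ∧ F = famB ω (ω.1.2 x)}

/-- the points of colour `i` -/
def ptsB (V : Finset (Fin q → ℕ)) (i : Fin q) (ω : Big d q) : Set (Sp d) :=
  {y | GoodB V ω ∧ ∃ x : Pt d q, x.2 < ω.1.1 x.1 ∧ x.1.2 = i ∧ y = pos ω x}

/-- [UNI] the uniform law -/
def T_UNI : Prop := ∀ d : ℕ, IsProbabilityMeasure (unif d) ∧
  (1 ≤ d → ∀ u : Fin d → ℝ, unif d {u} = 0) ∧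
  (∀ v : Fin d → ℝ, MeasurePreserving (fun (ζ : Fin d → ℝ) l => Int.fract (ζ l + v l)) (unif d) (unif d)) ∧
  ∀ (B : Set (Sp d)) (w : Fin d → ℝ), MeasurableSet B →
    unif d {u | WithLp.toLp 2 (fun l => w l + u l) ∈ B} =
      volume (B ∩ {y : Sp d | ∀ l, w l ≤ y l ∧ y l < w l + 1})

/-- [GOO] the good event is measurable and almost sure -/
def T_GOO : Prop := ∀ (d q : ℕ) (V : Finset (Fin q → ℕ)), 1 ≤ d →
  MeasurableSet {ω : Big d q | GoodB V ω} ∧
  ∀ μ : Measure (XX d q), IsProbabilityMeasure μ → (∀ᵐ ω ∂μ, IsPerf V ω) →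
    IsProbabilityMeasure (bigLaw μ) ∧ ∀ᵐ ω ∂(bigLaw μ), GoodB V ω

/-- [MTC] on the good event `matB` is a matching of the points -/
def T_MTC : Prop := ∀ (d q : ℕ) (V : Finset (Fin q → ℕ)) (ω : Big d q), 1 ≤ d → GoodB V ω →
  Function.Injective (pos ω) ∧
  (∀ F ∈ matB V ω, F.Nonempty ∧ ftype (fun i => ptsB V i ω) F ∈ V ∧ ∀ x ∈ F, ∃ i, x ∈ ptsB V i ω) ∧
  ∀ i, ∀ x ∈ ptsB V i ω, ∃! F, F ∈ matB V ω ∧ x ∈ F

/-- [MEA] measurability of the counts -/
def T_MEA : Prop := ∀ (d q : ℕ) (V : Finset (Fin q → ℕ)), 1 ≤ d →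
  (∀ i (B : Set (Sp d)), MeasurableSet B → Measurable fun ω : Big d q => (ptsB V i ω ∩ B).encard) ∧
  ∀ S : Set (Finset (Sp d)), MeasurableSet[famSigma d] S →
    Measurable fun ω : Big d q => (matB V ω ∩ S).encard

/-- number of the first `w.1` points which are in `A` -/
def hits {Y : Type} (A : Set Y) (w : ℕ × (ℕ → Y)) : ℕ :=
  ((Finset.range w.1).filter fun s => w.2 s ∈ A).card

/-- [SPL] splitting of a Poisson variable -/
def T_SPL : Prop := ∀ (Y : Type) [MeasurableSpace Y] (ν : Measure Y) [IsProbabilityMeasure ν]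
  (l : NNReal) (m : ℕ) (A : Fin m → Set Y), (∀ j, MeasurableSet (A j)) →
  (∀ j j', j ≠ j' → Disjoint (A j) (A j')) →
  (∀ B : Set Y, MeasurableSet B → Measurable (hits B)) ∧
  ((poissonMeasure l).prod (Measure.infinitePi fun _ : ℕ => ν)).map (fun w j => hits (A j) w) =
    Measure.pi fun j => poissonMeasure (l * (ν (A j)).toNNReal)

/-- [RGP] regrouping of the positions cell by cell -/
def T_RGP : Prop := ∀ (d q : ℕ) (D : Dat q),
  ((pois D d).prod (Measure.infinitePi fun _ : Pt d q => unif d)).map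
    (fun w (x : CC d q) => (w.1 x, fun k : ℕ => w.2 (x, k))) =
  Measure.infinitePi (fun x : CC d q => (poissonMeasure ⟨D.lam x.2, (D.pos x.2).le⟩).prod
    (Measure.infinitePi fun _ : ℕ => unif d))

/-- number of points of colour `i` in `B` which are attached to the cells in `W` -/
def ctW (ζ : Fin d → ℝ) (i : Fin q) (B : Set (Sp d)) (W : Finset (Cell d))
    (w : Cfg d q × (Pt d q → Fin d → ℝ)) : ℕ :=
  ∑ c ∈ W, ((Finset.range (w.1 (c, i))).filter fun k =>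
    (WithLp.toLp 2 fun l => ((c l : ℝ) + w.2 ((c, i), k) l + ζ l) : Sp d) ∈ B).card

/-- [PLC] the counts of the cells are independent Poisson variables -/
def T_PLC : Prop := ∀ (d q : ℕ) (D : Dat q) (ζ : Fin d → ℝ) (W : Finset (Cell d)) (m : ℕ)
  (c : Fin m → Fin q) (B : Fin m → Set (Sp d)), (∀ j, MeasurableSet (B j)) →
  (∀ j j', j ≠ j' → c j ≠ c j' ∨ Disjoint (B j) (B j')) →
  ((pois D d).prod (Measure.infinitePi fun _ : Pt d q => unif d)).map
    (fun w (p : W × Fin m) => ctW ζ (c p.2) (B p.2) {p.1.1} w) =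
  Measure.pi fun p : W × Fin m => poissonMeasure ((D.lam (c p.2)).toNNReal *
    (unif d {u | (WithLp.toLp 2 fun l => ((p.1.1 l : ℝ) + u l + ζ l) : Sp d) ∈ B p.2}).toNNReal)

/-- [PPP] the counts of a finite union of cells are independent Poisson variables -/
def T_PPP : Prop := ∀ (d q : ℕ) (D : Dat q) (ζ : Fin d → ℝ) (W : Finset (Cell d)) (m : ℕ)
  (c : Fin m → Fin q) (B : Fin m → Set (Sp d)), (∀ j, MeasurableSet (B j)) →
  (∀ j j', j ≠ j' → c j ≠ c j' ∨ Disjoint (B j) (B j')) →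
  (∀ j, ∀ y ∈ B j, ∃ v ∈ W, ∀ l, (v l : ℝ) + ζ l ≤ y l ∧ y l < (v l : ℝ) + ζ l + 1) →
  ((pois D d).prod (Measure.infinitePi fun _ : Pt d q => unif d)).map
    (fun w j => ctW ζ (c j) (B j) W w) =
  Measure.pi fun j => poissonMeasure ((D.lam (c j)).toNNReal * (volume (B j)).toNNReal)

/-- [POI] the points are independent Poisson processes -/
def T_POI : Prop := ∀ (d q : ℕ) (D : Dat q) (μ : Measure (XX d q)), 1 ≤ d → IsProbabilityMeasure μ →
  μ.map Prod.fst = pois D d → (∀ᵐ ω ∂μ, IsPerf D.V ω) → IsPoisson (bigLaw μ) D.lam (ptsB D.V)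

/-- the motion of the probability space which translates space by `v` -/
def mot (v : Fin d → ℝ) (ω : Big d q) : Big d q :=
  (shX (-(fun l => ⌊ω.2.2 l + v l⌋)) ω.1, fun x => ω.2.1 (trP (-(fun l => ⌊ω.2.2 l + v l⌋)) x),
    fun l => Int.fract (ω.2.2 l + v l))

/-- [MOT] the motion preserves the law -/
def T_MOT : Prop := ∀ (d q : ℕ) (μ : Measure (XX d q)) (v : Fin d → ℝ), IsProbabilityMeasure μ →
  (∀ c, μ.map (shX c) = μ) → MeasurePreserving (mot v) (bigLaw μ) (bigLaw μ)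

/-- [IVS] the motion translates the families and the points -/
def T_IVS : Prop := ∀ (d q : ℕ) (V : Finset (Fin q → ℕ)) (v : Sp d) (ω : Big d q), 1 ≤ d →
  GoodB V ω → GoodB V (mot v ω) ∧ matB V (mot v ω) = (trF v) '' matB V ω ∧
    ∀ i, ptsB V i (mot v ω) = (fun x => x + v) '' ptsB V i ω

/-- [TLB] tail bound -/
def T_TLB : Prop := ∀ (d q : ℕ) (V : Finset (Fin q → ℕ)) (μ : Measure (XX d q)) (r : ℝ), 1 ≤ d →
  IsProbabilityMeasure μ → (∀ c, μ.map (shX c) = μ) → (∀ᵐ ω ∂μ, IsPerf V ω) → 0 ≤ r →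
  ∫⁻ ω, (({x : Sp d | (∀ i, 0 ≤ x i ∧ x i < 1) ∧ (∃ i, x ∈ ptsB V i ω) ∧
    ∃ G ∈ matB V ω, x ∈ G ∧ r < fdiam G}.encard : ℕ∞) : ENNReal) ∂(bigLaw μ) ≤
  2 ^ d * ∫⁻ ω, (numFar (r - Real.sqrt d) ω : ENNReal) ∂μ

/-- [ASY] asymptotics -/
def T_ASY : Prop := ∀ (a ε c C : ℝ) (d : ℕ), 1 ≤ d → 0 < ε → 0 < C → ∀ᶠ r : ℝ in Filter.atTop,
  C * Real.exp (-(a - ε / 2) * (r - c) ^ d) ≤ Real.exp (-(a - ε) * r ^ d)

/-! ### part 3: the typical diameter -/

/-- [DIST] points of different colours are different -/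
def T_DIST : Prop := ∀ (d q : ℕ) (D : Dat q) (S : Scheme D.V D.lam d), 1 ≤ d →
  ∀ᵐ ω ∂S.P, ∀ i j, i ≠ j → Disjoint (S.Pi i ω) (S.Pi j ω)

/-- [EPC] expected number of points of the unit cube -/
def T_EPC : Prop := ∀ (d q : ℕ) (D : Dat q) (S : Scheme D.V D.lam d), 1 ≤ d →
  S.tl (-1) = ENNReal.ofReal (∑ i, D.lam i)

/-! ### assemblies -/

/-- [DSC] from finite windows to the discrete form -/
def T_DSC : Prop := T_FINW → T_DISC

/-- [UPA] from the discrete form to the upper bound -/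
def T_UPA : Prop := T_DISC → T_UPPER

end

end Pool.Agent.H96.MC
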